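import Pool.Agent.K3h19.RV.Sqrt

/-!
# The Goldbach-Knjzek-Rivera conjecture for almost primes: very few exceptions

Rivera's conjecture: every even `N > 4` is `p + q` with primes `p`, `q` and `√N < p < 4 √N`. Here `N - p` has at most `r`
prime factors, all of them at least `N ^ (1 / 16)`, for all but `C X ^ η` of the even `N ≤ X`, with the expected number
of such `p` up to a constant, for every `η > 0` larger than `2 / Λ_r - 1 / 2`, where
`Λ_r = r + 1 - log (4 / (1 + 3 ^ (-r))) / log 3` is the constant of Richert: `η = 0.591` for `r = 2`, `η = 0.222` for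
`r = 3`, `η = 0.034` for `r = 4`.

The starting result `SqrtWindowFewExceptions` has `η = 1 / 2 + ε` for `r = 3` (and `13 / 22 + ε` for `r = 2`). Its proof:
the linear sieve with the weights of Richert of level `D = X ^ τ`; the error terms are sums over the characters of moduli
up to `D`, with the theorem of Bombieri and Vinogradov for conductors below `X ^ (1 / 4)`, and the large sieve both for the
primes `p` and for the set `S` of the exceptional `N`. The large sieve for `S` is lossy if `S` is sparse: it contains the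
number `X` of all the integers up to `X`, so that `X / √X` exceptions have to be admitted. New here: for sparse `S` it is
replaced by the orthogonality of the characters for each modulus and the divisor bound,
`∑_{f ≤ j} (f / φ(f)) ∑_χ |∑_{n ∈ S} χ(n)| ^ 2 ≤ j ^ 2 |S| + j X ^ ε |S| ^ 2`, which is good for all levels below the length
`√X` of the interval of the primes `p` and gives at most `D ^ 2 / √X` exceptions; and the parameters in the weights are
the best possible ones, for each `r`.
-/

set_option autoImplicit false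

open Finset

namespace Pool.Agent.Results.MP_b454d1_nt.FewerExceptions

/-- the variable part of the singular series of the Goldbach problem -/
noncomputable def sing (N : ℕ) : ℝ :=
  ∏ p ∈ N.primeFactors.erase 2, (((p : ℝ) - 1) / ((p : ℝ) - 2))

open Classical in
/-- The number of the primes `p < N` with `√N < p < 4 √N` such that `N - p` has at most `r` prime
factors (counted with multiplicity), all of them at least `w`. -/
noncomputable def inSqrt (r : ℕ) (w : ℝ) (N : ℕ) : ℕ :=
  ((range N).filter (fun p : ℕ => p.Prime ∧ √(N : ℝ) < p ∧ (p : ℝ) < 4 * √(N : ℝ) ∧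
    (N - p).primeFactorsList.length ≤ r ∧
    ∀ q : ℕ, q.Prime → q ∣ (N - p) → w ≤ q)).card

/-- the constant of Richert, `r + 1 - log (4 / (1 + 3 ^ (-r))) / log 3` -/
noncomputable def Lam (r : ℕ) : ℝ := r + 1 - Real.log (4 / (1 + (1 / 3) ^ r)) / Real.log 3

open Classical in
/-- **Rivera's window, very few exceptions.** Let `r ≥ 2`, `η > 0` and `η > 2 / Λ_r - 1 / 2`. All even `N ≤ X` with at
most `C X ^ η` exceptions have at least `δ sing N √N / (log N) ^ 2` primes `p` with `√N < p < 4 √N` such that `N - p` has at
most `r` prime factors, all of them at least `N ^ (1 / 16)`. One can take `η = 0.591` for `r = 2`, `η = 0.222` for `r = 3`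
and `η = 0.034` for `r = 4`. -/
theorem result :
    (∀ r : ℕ, 2 ≤ r → ∀ η : ℝ, 0 < η → 2 / Lam r - 1 / 2 < η →
      ∃ δ C : ℝ, 0 < δ ∧ 0 < C ∧ ∀ X : ℕ, 1 ≤ X →
        (((Icc 1 X).filter (fun N : ℕ => Even N ∧
          (inSqrt r ((N : ℝ) ^ ((1 : ℝ) / 16)) N : ℝ) <
            δ * sing N * (√(N : ℝ) / Real.log N ^ 2))).card : ℝ) ≤ C * (X : ℝ) ^ η) ∧
    2 / Lam 2 - 1 / 2 < 591 / 1000 ∧ 2 / Lam 3 - 1 / 2 < 222 / 1000 ∧
    2 / Lam 4 - 1 / 2 < 34 / 1000 := by
  have hL0 : 0 < Real.log 3 := by linarith [Pool.Agent.K3h19.RV.log3_pos]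
  have key : ∀ r : ℕ, Lam r = Pool.Agent.K3h19.RV.Lam r := by
    intro r
    unfold Lam Pool.Agent.K3h19.RV.Lam
    have h3 : (0 : ℝ) < 3 ^ r := by positivity
    have e1 : (4 : ℝ) / (1 + (1 / 3) ^ r) = 3 ^ r / ((3 ^ r + 1) / 4) := by
      rw [div_pow, one_pow]
      field_simp
    rw [e1, Real.log_div (by positivity) (by positivity), Real.log_pow, sub_div,
      mul_div_assoc, div_self hL0.ne']
    ring
  refine ⟨fun r hr η hη0 hη => ?_, ?_, ?_, ?_⟩
  · rw [key] at hη
    exact Pool.Agent.K3h19.RV.few r hr η hη0 hη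
  · rw [key]
    have h := Pool.Agent.K3h19.RV.lam_two
    have : 2 / Pool.Agent.K3h19.RV.Lam 2 ≤ 2 / (1 + 5 / 6) :=
      div_le_div_of_nonneg_left (by norm_num) (by norm_num) h
    norm_num at this ⊢
    linarith
  · rw [key]
    have h := Pool.Agent.K3h19.RV.lam_three
    have : 2 / Pool.Agent.K3h19.RV.Lam 3 ≤ 2 / (1 + 131 / 74) :=
      div_le_div_of_nonneg_left (by norm_num) (by norm_num) h
    norm_num at this ⊢
    linarith
  · rw [key]
    have h := Pool.Agent.K3h19.RV.lam_four
    have : 2 / Pool.Agent.K3h19.RV.Lam 4 ≤ 2 / (1 + 151 / 55) :=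
      div_le_div_of_nonneg_left (by norm_num) (by norm_num) h
    norm_num at this ⊢
    linarith

end Pool.Agent.Results.MP_b454d1_nt.FewerExceptions
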