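import Pool.Agent.K3h65.RL.Main

/-!
# For every large `N`, a positive proportion of the primes `p` with `√N < p < 4 √N` are such that `N - p` has a prime
# factor larger than `N ^ 0.38`

Rivera's conjecture: every even `N > 4` is `p + q` with primes `p`, `q` and `√N < p < 4 √N`. We show that for EVERY
sufficiently large `N` and every `δ < (1 - exp (- 3 / 4) / 2) / 2 = 0.3819...` at least `c √N / log N` primes `p` with
`√N < p < 4 √N` are such that `N - p` has a prime factor larger than `N ^ δ`. More generally, let `0 < α < 1` and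
`δ < α (1 - exp (- (2 / α - 1) / 4) / 2)`. For every sufficiently large `N` at least `c N ^ α / log N` primes `p`
with `N ^ α < p < 4 N ^ α` are such that `N - p` has a prime factor larger than `N ^ δ`.

Proof (Chebyshev's method, as in the work on the largest prime factor of `p + a`). Let `x = N ^ α`. The mean of
`log (N - p)` over the primes `p` of `(x, 3x]` is `(1 / α) log x`; the prime powers `d ≤ x ^ (1 / 2 - ε)` contribute
`(1 / 2) log x` (the theorem of Bombieri and Vinogradov, with the maximum over the residue classes, because `N` is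
arbitrary), and the primes `ℓ` between `x ^ (1 / 2 - ε)` and `x ^ θ` at most `2 log (1 / (2 (1 - θ))) log x`
(the theorem of Brun and Titchmarsh, with the constant `2 + ε`).
-/

set_option autoImplicit false

namespace Pool.Agent.Results.MP_b454d1_nt.LargePrimeFactor

open Finset Filter

/-- The number of the primes `p < N` with `N ^ α < p < 4 N ^ α` such that `N - p` has a prime factor larger than
`N ^ δ`. -/
noncomputable def count (α δ : ℝ) (N : ℕ) : ℕ :=
  {p : ℕ | p.Prime ∧ p < N ∧ (N : ℝ) ^ α < p ∧ (p : ℝ) < 4 * (N : ℝ) ^ α ∧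
    ∃ q : ℕ, q.Prime ∧ q ∣ N - p ∧ (N : ℝ) ^ δ < q}.ncard

theorem general (α δ : ℝ) (hα : 0 < α) (hα1 : α < 1)
    (hδ : δ < α * (1 - Real.exp (-((2 / α - 1) / 4)) / 2)) :
    ∃ c : ℝ, 0 < c ∧ ∃ N₀ : ℕ, ∀ N : ℕ, N₀ ≤ N → c * ((N : ℝ) ^ α / Real.log N) ≤ count α δ N := by
  classical
  have hs : 1 / 4 < (2 / α - 1) / 4 := by
    have : 2 < 2 / α := by rw [lt_div_iff₀ hα]; linarith
    linarith
  obtain ⟨s, hsdef⟩ : ∃ s, s = (2 / α - 1) / 4 := ⟨_, rfl⟩
  rw [← hsdef] at hδ hs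
  have hexp : Real.exp (-s) < 4 / 5 := by
    have h1 : 5 / 4 < Real.exp s := by
      have := Real.add_one_le_exp s
      linarith
    rw [Real.exp_neg, inv_lt_comm₀ (Real.exp_pos s) (by norm_num)]
    linarith
  obtain ⟨θ, hθdef⟩ : ∃ θ, θ = max (δ / α) (3 / 5) := ⟨_, rfl⟩
  have hθ1 : θ < 1 - Real.exp (-s) / 2 := by
    rw [hθdef]
    apply max_lt
    · rw [div_lt_iff₀ hα]; linarith
    · linarith
  have hθ2 : 1 / 2 < θ := by
    rw [hθdef]
    exact lt_of_lt_of_le (by norm_num) (le_max_right _ _)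
  have hes := Real.exp_pos (-s)
  have hθ3 : θ < 1 := by linarith
  have hκ : 1 < 1 / α := by rw [lt_div_iff₀ hα]; linarith
  have hmain : 1 / 2 + 2 * Real.log ((1 / 2) / (1 - θ)) < 1 / α := by
    have h1 : (1 / 2) / (1 - θ) < Real.exp s := by
      rw [div_lt_iff₀ (by linarith)]
      have h2 : Real.exp s * Real.exp (-s) = 1 := by rw [← Real.exp_add, add_neg_cancel, Real.exp_zero]
      have h3 : Real.exp s * (Real.exp (-s) / 2) < Real.exp s * (1 - θ) :=
        mul_lt_mul_of_pos_left (by linarith) (Real.exp_pos s)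
      linarith
    have h2 : Real.log ((1 / 2) / (1 - θ)) < s := by
      rw [Real.log_lt_iff_lt_exp (div_pos (by norm_num) (by linarith))]
      exact h1
    have h3 : 1 / 2 + 2 * s = 1 / α := by
      rw [hsdef]
      field_simp
      ring
    linarith
  obtain ⟨c, hc, x₀, hx₀⟩ := Pool.Agent.K3h65.RL.main (1 / α) θ hκ hθ2 hθ3 hmain
  have e1 : ∀ᶠ N : ℕ in atTop, x₀ ≤ (N : ℝ) ^ α :=
    ((tendsto_rpow_atTop hα).comp tendsto_natCast_atTop_atTop).eventually (eventually_ge_atTop x₀)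
  obtain ⟨N₀, hN₀⟩ := eventually_atTop.1 (e1.and (eventually_ge_atTop 2))
  refine ⟨c, hc, N₀, fun N hN => ?_⟩
  obtain ⟨h1, h2⟩ := hN₀ N hN
  have hN0 : (0 : ℝ) < N := by exact_mod_cast (by omega : 0 < N)
  have hN1 : (1 : ℝ) < N := by exact_mod_cast (by omega : 1 < N)
  have hlN : 0 < Real.log N := Real.log_pos hN1
  have h3 : (N : ℝ) = ((N : ℝ) ^ α) ^ (1 / α) := by
    rw [← Real.rpow_mul hN0.le, mul_one_div_cancel hα.ne', Real.rpow_one]
  have h4 := hx₀ ((N : ℝ) ^ α) h1 N h3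
  rw [Real.log_rpow hN0] at h4
  have h5 : c * ((N : ℝ) ^ α / Real.log N) ≤ c * (N : ℝ) ^ α / (α * Real.log N) := by
    rw [← mul_div_assoc]
    apply div_le_div_of_nonneg_left (by positivity) (by positivity)
    nlinarith
  refine (h5.trans h4).trans ?_
  unfold count
  rw [← Set.ncard_coe_finset]
  refine Nat.cast_le.2 (Set.ncard_le_ncard ?_ ?_)
  · intro p hp
    rw [mem_coe, mem_filter, mem_range] at hp
    obtain ⟨hpN, hpp, hp1, hp2, q, hq, hqd, hqx⟩ := hp
    refine ⟨hpp, hpN, hp1, hp2, q, hq, hqd, lt_of_le_of_lt ?_ hqx⟩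
    rw [← Real.rpow_mul hN0.le]
    apply Real.rpow_le_rpow_of_exponent_le hN1.le
    rw [hθdef]
    have h6 := le_max_left (δ / α) (3 / 5)
    rw [div_le_iff₀ hα] at h6
    linarith
  · exact (Set.finite_lt_nat N).subset fun p hp => hp.2.1

/-- **Large prime factors of `N - p`, `√N < p < 4 √N`.** For every sufficiently large `N` at least `c √N / log N` primes
`p` with `√N < p < 4 √N` are such that `N - p` has a prime factor larger than `N ^ (19 / 50)`. In general, let `0 < α < 1`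
and `δ < α (1 - exp (- (2 / α - 1) / 4) / 2)`; for every sufficiently large `N` at least `c N ^ α / log N` primes `p`
with `N ^ α < p < 4 N ^ α` are such that `N - p` has a prime factor larger than `N ^ δ`. -/
theorem result :
    (∃ c : ℝ, 0 < c ∧ ∃ N₀ : ℕ, ∀ N : ℕ, N₀ ≤ N → c * (√(N : ℝ) / Real.log N) ≤
      ({p : ℕ | p.Prime ∧ p < N ∧ √(N : ℝ) < p ∧ (p : ℝ) < 4 * √(N : ℝ) ∧
        ∃ q : ℕ, q.Prime ∧ q ∣ N - p ∧ (N : ℝ) ^ ((19 : ℝ) / 50) < q}.ncard : ℝ)) ∧
    (∀ α δ : ℝ, 0 < α → α < 1 → δ < α * (1 - Real.exp (-((2 / α - 1) / 4)) / 2) →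
      ∃ c : ℝ, 0 < c ∧ ∃ N₀ : ℕ, ∀ N : ℕ, N₀ ≤ N →
        c * ((N : ℝ) ^ α / Real.log N) ≤ (count α δ N : ℝ)) := by
  refine ⟨?_, fun α δ h1 h2 h3 => general α δ h1 h2 h3⟩
  have h : (19 : ℝ) / 50 < 1 / 2 * (1 - Real.exp (-((2 / (1 / 2) - 1) / 4)) / 2) := by
    have h1 : Real.exp (-((2 / (1 / 2) - 1) / 4)) < 12 / 25 := by
      have h2 : -(((2 : ℝ) / (1 / 2) - 1) / 4) = -(3 / 4) := by norm_num
      rw [h2, Real.exp_neg, inv_lt_comm₀ (Real.exp_pos _) (by norm_num)]
      have h3 : Real.exp (3 / 4) ^ 4 = Real.exp 1 ^ 3 := by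
        rw [← Real.exp_nat_mul, ← Real.exp_nat_mul]
        norm_num
      have h4 := Real.exp_one_gt_d9
      by_contra h5
      push Not at h5
      have h6 : Real.exp (3 / 4) ^ 4 ≤ ((12 / 25 : ℝ)⁻¹) ^ 4 := pow_le_pow_left₀ (Real.exp_pos _).le h5 4
      have h7 : (2.7182818283 : ℝ) ^ 3 < Real.exp 1 ^ 3 := pow_lt_pow_left₀ h4 (by norm_num) (by norm_num)
      rw [h3] at h6
      norm_num at h6 h7
      linarith
    linarith
  obtain ⟨c, hc, N₀, hN⟩ := general (1 / 2) (19 / 50) (by norm_num) (by norm_num) h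
  refine ⟨c, hc, N₀, fun N hN' => ?_⟩
  have h1 := hN N hN'
  unfold count at h1
  rw [← Real.sqrt_eq_rpow] at h1
  exact h1

end Pool.Agent.Results.MP_b454d1_nt.LargePrimeFactor
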