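import Pool.Agent.K3h21.CB.App2

set_option autoImplicit false

/-!
# Several even numbers and one prime in the Rivera windows

Among any `K = K(m)` even numbers in `[N, 3 N]`, `N` large, there are `m` numbers `n` which have representations
`n = p + P₅` with ONE AND THE SAME prime `p`, and this prime lies in the window `√n < p < 4 √n` of each of them.
-/

namespace Pool.Agent.Results.MP_b454d1_nt.ManyNumbersOnePrime

/-- `n` has at most `r` prime factors, counted with multiplicity, all of them at least `w`. -/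
def AlmostPrime (r : ℕ) (w : ℝ) (n : ℕ) : Prop :=
  n.primeFactorsList.length ≤ r ∧ ∀ q : ℕ, q.Prime → q ∣ n → w ≤ q

/-- `p` lies strictly between `√n` and `4 √n`, and `n - p` has at most five prime factors, all at least `n ^ (49 / 800)`. -/
def Represents (p n : ℕ) : Prop :=
  Real.sqrt n < p ∧ (p : ℝ) < 4 * Real.sqrt n ∧ AlmostPrime 5 ((n : ℝ) ^ ((49 : ℝ) / 800)) (n - p)

open Classical in
/-- **Several even numbers and one prime.** For every `m` there are `K`, `A`, `N₀` such that for all `N ≥ N₀` and every set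
`E` of at least `K` even numbers in `[N, 3 N]` there are at least `√N / (log N) ^ A` primes `p` such that at least `m` of
the numbers `n ∈ E` satisfy `√n < p < 4 √n` and `n - p` has at most five prime factors, all at least `n ^ (49 / 800)`. -/
theorem result (m : ℕ) :
    ∃ K A N₀ : ℕ, ∀ N : ℕ, N₀ ≤ N → ∀ E : Finset ℕ, K ≤ E.card →
      (∀ n ∈ E, Even n ∧ N ≤ n ∧ n ≤ 3 * N) →
      Real.sqrt N / Real.log N ^ A ≤
        (((Finset.range (4 * N)).filter (fun p : ℕ => p.Prime ∧ m ≤ (E.filter (Represents p)).card)).card : ℝ) := by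
  obtain ⟨K, A, N₀, h⟩ := Pool.Agent.K3h21.CB.gold m
  refine ⟨K, A, N₀, fun N hN E hE hEe => (h N hN E hE hEe).trans ?_⟩
  have hsub := Finset.card_le_card (s := (Finset.range (4 * N)).filter (fun p : ℕ => p.Prime ∧ ∃ H ⊆ E, H.card = m ∧
      ∀ n ∈ H, Real.sqrt n < p ∧ (p : ℝ) < 4 * Real.sqrt n ∧
        Pool.Agent.K3h21.AV.AP 5 ((n : ℝ) ^ ((49 : ℝ) / 800)) (n - p)))
    (t := (Finset.range (4 * N)).filter (fun p : ℕ => p.Prime ∧ m ≤ (E.filter (Represents p)).card)) (by
      intro p hp
      rw [Finset.mem_filter] at hp ⊢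
      obtain ⟨h1, h2, H, hH, hHc, hall⟩ := hp
      refine ⟨h1, h2, ?_⟩
      rw [← hHc]
      apply Finset.card_le_card
      intro n hn
      rw [Finset.mem_filter]
      exact ⟨hH hn, hall n hn⟩)
  exact_mod_cast hsub

end Pool.Agent.Results.MP_b454d1_nt.ManyNumbersOnePrime
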