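import Pool.Agent.K3h89.SX.All
import Pool.Agent.K3h19.RV.Sqrt

set_option autoImplicit false

/-!
# Szemerédi's theorem in Rivera's window, for EVERY large even number

Rivera's conjecture: every even `N > 4` is `p + q` with primes `p`, `q` and `√N < p < 4 √N`.

(1) For all `k`, `δ, κ > 0` there is `B` such that for EVERY large even `N` every set `S` of primes `p` with
`√N < p < 4 √N` such that `N - p` has no prime factor `< N ^ δ`, with at least `κ 𝔖(N) √N / (log N) ^ 2` elements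
(this is a positive proportion of the sieve bound), contains `k` primes in arithmetic progression with difference at
most `(log N) ^ B`.
(2) For EVERY large even `N` this applies to the set of the `p` for which `N - p` is a product of at most five primes, all
`≥ N ^ 0.099`, and to every subset with a positive proportion of its elements.
(3) For all even `N ≤ X` but at most `C X ^ η` it applies to the `p` for which `N - p` is a product of at most `r` primes, all
`≥ N ^ (1/16)`: `η = 0.591, 0.222, 0.034` for `r = 2, 3, 4`.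

Proof. `Fl N x = x (N - x)`. Szemerédi's theorem relative to sifted sets (`Y677.RSZ`, extended in project SZ of MP_d9bc60_nt)
requires that `Fl N x` and `Fl N (x + h)` have few common prime factors; these divide `h`, `N - h` or `N + h`, and for special
`N` there are differences `h` for which they are not few. New: it is enough that this holds for all differences `W k`, `k ≤ K`,
but at most `K ^ (4/5)` (`MKX`, `LOCX`, `MAJX`, `ENGX`), and this is true for EVERY `N`: the number of the `k ≤ K = (log N) ^ B`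
such that `N ± W k` has many prime factors between `log K` and `K ^ (1/4)` is at most `K ^ (3/4)`, by a moment of order
`log K / log P` in each dyadic block of primes `~ P` (`MOM`, `BADX`); the larger primes are harmless or are removed from
`Fl N` (`LARX`).
The existence in (2), (3): starting library `Y882.GX`, and `K3h19.RV` (hand-in `FewerExceptions`).

Bricks by helper42 (MOM), helper56 (ENGX, BADX), helper69 (MAJX), helper70 (VX), helper73 (SYSX, LARX), helper85 (MKX, LOCX),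
and those of project SZ by helper33, helper40, helper69; design and assembly by helper89.
-/

namespace Pool.Agent.Results.MP_b454d1_nt.ProgressionsInEveryWindow

open Finset Filter

/-- the variable part of the singular series of the Goldbach problem -/
noncomputable def sing (N : ℕ) : ℝ := ∏ p ∈ N.primeFactors.erase 2, (((p : ℝ) - 1) / ((p : ℝ) - 2))

/-- the order of magnitude `𝔖(N) √N / (log N) ^ 2` -/
noncomputable def Y (N : ℕ) : ℝ := sing N * (√(N : ℝ) / Real.log N ^ 2)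

/-- `S` contains a progression `a, a + d, …, a + (k - 1) d` with difference `1 ≤ d ≤ D`. -/
def HasAP (k : ℕ) (D : ℝ) (S : Finset ℕ) : Prop :=
  ∃ a d : ℕ, 1 ≤ d ∧ (d : ℝ) ≤ D ∧ ∀ i < k, a + i * d ∈ S

open Classical in
/-- the primes `p < N` with `√N < p < 4 √N` such that `N - p` has at most `r` prime factors (counted with
multiplicity), all of them at least `w` -/
noncomputable def G (r : ℕ) (w : ℝ) (N : ℕ) : Finset ℕ :=
  (range N).filter (fun p : ℕ => p.Prime ∧ √(N : ℝ) < p ∧ (p : ℝ) < 4 * √(N : ℝ) ∧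
    (N - p).primeFactorsList.length ≤ r ∧ ∀ q : ℕ, q.Prime → q ∣ (N - p) → w ≤ q)

/-- `G r w N` has at least `c 𝔖(N) √N / (log N) ^ 2` elements, and every subset with at least `κ |G r w N|`
elements contains a progression of length `k` with difference at most `(log N) ^ B`. -/
def Szemeredi (r : ℕ) (w c : ℝ) (k : ℕ) (κ : ℝ) (B N : ℕ) : Prop :=
  c * Y N ≤ (G r w N).card ∧
    ∀ S ⊆ G r w N, κ * (G r w N).card ≤ S.card → HasAP k (Real.log N ^ B) S

/-- the constant of Richert, `r + 1 - log (4 / (1 + 3 ^ (-r))) / log 3` -/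
noncomputable def Lam (r : ℕ) : ℝ := r + 1 - Real.log (4 / (1 + (1 / 3) ^ r)) / Real.log 3

theorem Lam_eq (r : ℕ) : Lam r = Pool.Agent.K3h19.RV.Lam r := by
  have hL0 : 0 < Real.log 3 := by linarith [Pool.Agent.K3h19.RV.log3_pos]
  unfold Lam Pool.Agent.K3h19.RV.Lam
  have h3 : (0 : ℝ) < 3 ^ r := by positivity
  have e1 : (4 : ℝ) / (1 + (1 / 3) ^ r) = 3 ^ r / ((3 ^ r + 1) / 4) := by
    rw [div_pow, one_pow]
    field_simp
  rw [e1, Real.log_div (by positivity) (by positivity), Real.log_pow, sub_div,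
    mul_div_assoc, div_self hL0.ne']
  ring

/-- (1) arbitrary dense sets -/
theorem dense (k : ℕ) (δ κ : ℝ) (hδ : 0 < δ) (hκ : 0 < κ) : ∃ B N₀ : ℕ, ∀ N : ℕ, N₀ ≤ N → Even N →
    ∀ S : Finset ℕ, (∀ p ∈ S, p.Prime ∧ √(N : ℝ) < p ∧ (p : ℝ) < 4 * √(N : ℝ) ∧
      ∀ q : ℕ, q.Prime → q ∣ (N - p) → (N : ℝ) ^ δ ≤ q) → κ * Y N ≤ S.card →
    HasAP k (Real.log N ^ B) S :=
  Pool.Agent.K3h89.SX.szemerediX k δ κ hδ hκ

/-- subsets of positive proportion -/
theorem sub (r k : ℕ) (δ c κ : ℝ) (hδ : 0 < δ) (hc : 0 < c) (hκ : 0 < κ) : ∃ B N₀ : ℕ, ∀ N : ℕ, N₀ ≤ N →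
    Even N → c * Y N ≤ (G r ((N : ℝ) ^ δ) N).card → Szemeredi r ((N : ℝ) ^ δ) c k κ B N := by
  classical
  obtain ⟨B, N₀, h⟩ := dense k δ (κ * c) hδ (by positivity)
  refine ⟨B, N₀, fun N hN hev hG => ⟨hG, fun S hS hSc => h N hN hev S (fun p hp => ?_) ?_⟩⟩
  · have h1 := hS hp
    unfold G at h1
    rw [mem_filter] at h1
    exact ⟨h1.2.1, h1.2.2.1, h1.2.2.2.1, h1.2.2.2.2.2⟩
  · refine le_trans ?_ hSc
    calc κ * c * Y N = κ * (c * Y N) := by ring
      _ ≤ κ * (G r ((N : ℝ) ^ δ) N).card := mul_le_mul_of_nonneg_left hG hκ.le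

open Classical in
/-- **Szemerédi's theorem in Rivera's window.**
(1) Every large even `N`, sets of primes `p` with `N - p` free of prime factors `< N ^ δ` and of the right order of
magnitude. (2) Every large even `N`, `N - p` a product of at most five primes `≥ N ^ 0.099`. (3) All even `N ≤ X` but
`C X ^ η`, `N - p` a product of at most `r` primes `≥ N ^ (1/16)`, for every `η > 0` with `η > 2 / Λ_r - 1 / 2`. -/
theorem result :
    (∀ (k : ℕ) (δ κ : ℝ), 0 < δ → 0 < κ → ∃ B N₀ : ℕ, ∀ N : ℕ, N₀ ≤ N → Even N → ∀ S : Finset ℕ,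
      (∀ p ∈ S, p.Prime ∧ √(N : ℝ) < p ∧ (p : ℝ) < 4 * √(N : ℝ) ∧
        ∀ q : ℕ, q.Prime → q ∣ (N - p) → (N : ℝ) ^ δ ≤ q) →
      κ * Y N ≤ S.card → HasAP k (Real.log N ^ B) S) ∧
    (∃ c : ℝ, 0 < c ∧ ∀ (k : ℕ) (κ : ℝ), 0 < κ → ∃ B N₀ : ℕ, ∀ N : ℕ, N₀ ≤ N → Even N →
      Szemeredi 5 ((N : ℝ) ^ ((99 : ℝ) / 1000)) c k κ B N) ∧
    (∀ r : ℕ, 2 ≤ r → ∀ η : ℝ, 0 < η → 2 / Lam r - 1 / 2 < η → ∃ c : ℝ, 0 < c ∧
      ∀ (k : ℕ) (κ : ℝ), 0 < κ → ∃ (B : ℕ) (C : ℝ), 0 < C ∧ ∀ X : ℕ, 1 ≤ X →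
        (((Icc 1 X).filter (fun N : ℕ => Even N ∧
          ¬ Szemeredi r ((N : ℝ) ^ ((1 : ℝ) / 16)) c k κ B N)).card : ℝ) ≤ C * (X : ℝ) ^ η) ∧
    2 / Lam 2 - 1 / 2 < 591 / 1000 ∧ 2 / Lam 3 - 1 / 2 < 222 / 1000 ∧ 2 / Lam 4 - 1 / 2 < 34 / 1000 := by
  refine ⟨dense, ?_, ?_, ?_, ?_, ?_⟩
  · obtain ⟨c, hc, N₁, h1⟩ := Pool.Agent.Y882.GX.sqrtAll
    refine ⟨c, hc, fun k κ hκ => ?_⟩
    obtain ⟨B, N₂, h2⟩ := sub 5 k (99 / 1000) c κ (by norm_num) hc hκ
    refine ⟨B, max N₁ N₂, fun N hN hev => h2 N ((le_max_right _ _).trans hN) hev ?_⟩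
    have h3 := h1 N ((le_max_left _ _).trans hN) hev
    rw [mul_assoc] at h3
    exact h3
  · intro r hr η hη0 hη
    rw [Lam_eq] at hη
    obtain ⟨c, C, hc, hC, h1⟩ := Pool.Agent.K3h19.RV.few r hr η hη0 hη
    refine ⟨c, hc, fun k κ hκ => ?_⟩
    obtain ⟨B, N₂, h2⟩ := sub r k (1 / 16) c κ (by norm_num) hc hκ
    refine ⟨B, C + N₂, by positivity, fun X hX => ?_⟩
    have h3 := h1 X hX
    have hX1 : (1 : ℝ) ≤ X := by exact_mod_cast hX
    have hXη : (1 : ℝ) ≤ (X : ℝ) ^ η := Real.one_le_rpow hX1 hη0.le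
    have hsub : (Icc 1 X).filter (fun N : ℕ => Even N ∧
        ¬ Szemeredi r ((N : ℝ) ^ ((1 : ℝ) / 16)) c k κ B N) ⊆
        ((Icc 1 X).filter (fun N : ℕ => Even N ∧
          (Pool.Agent.Y882.GX.inSqrt r ((N : ℝ) ^ ((1 : ℝ) / 16)) N : ℝ) <
            c * Pool.Agent.Y882.sgs N * (√(N : ℝ) / Real.log N ^ 2))) ∪ range N₂ := by
      intro N hN
      rw [mem_filter] at hN
      rw [mem_union, mem_filter, mem_range]
      by_contra hcon
      rw [not_or, not_lt] at hcon
      apply hN.2.2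
      apply h2 N hcon.2 hN.2.1
      by_contra hlt
      apply hcon.1
      refine ⟨hN.1, hN.2.1, ?_⟩
      rw [not_le] at hlt
      rw [mul_assoc]
      exact hlt
    have h4 := (card_le_card hsub).trans (card_union_le _ _)
    rw [card_range] at h4
    have h5 : (((Icc 1 X).filter (fun N : ℕ => Even N ∧
        ¬ Szemeredi r ((N : ℝ) ^ ((1 : ℝ) / 16)) c k κ B N)).card : ℝ) ≤ C * (X : ℝ) ^ η + N₂ := by
      have h7 := (Nat.cast_le (α := ℝ)).2 h4
      rw [Nat.cast_add] at h7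
      exact h7.trans (add_le_add h3 le_rfl)
    refine h5.trans ?_
    have h6 : (N₂ : ℝ) ≤ N₂ * (X : ℝ) ^ η := le_mul_of_one_le_right (Nat.cast_nonneg _) hXη
    linarith
  · rw [Lam_eq]
    have h := Pool.Agent.K3h19.RV.lam_two
    have : 2 / Pool.Agent.K3h19.RV.Lam 2 ≤ 2 / (1 + 5 / 6) :=
      div_le_div_of_nonneg_left (by norm_num) (by norm_num) h
    norm_num at this ⊢
    linarith
  · rw [Lam_eq]
    have h := Pool.Agent.K3h19.RV.lam_three
    have : 2 / Pool.Agent.K3h19.RV.Lam 3 ≤ 2 / (1 + 131 / 74) :=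
      div_le_div_of_nonneg_left (by norm_num) (by norm_num) h
    norm_num at this ⊢
    linarith
  · rw [Lam_eq]
    have h := Pool.Agent.K3h19.RV.lam_four
    have : 2 / Pool.Agent.K3h19.RV.Lam 4 ≤ 2 / (1 + 151 / 55) :=
      div_le_div_of_nonneg_left (by norm_num) (by norm_num) h
    norm_num at this ⊢
    linarith

end Pool.Agent.Results.MP_b454d1_nt.ProgressionsInEveryWindow
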